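import Pool.Agent.Helper59.LUC.Goals

/-! # Packet LT5 (3445) : the core of the lower bound -/

set_option autoImplicit false

namespace Pool.Agent.Helper59.LUC

namespace PkLT5

lemma norm_prod_sub_one {ι : Type} (s : Finset ι) (u : ι → ℂ) (hu : ∀ i ∈ s, ‖u i‖ = 1) :
    ‖∏ i ∈ s, u i - 1‖ ≤ ∑ i ∈ s, ‖u i - 1‖ := by
  classical
  induction s using Finset.induction_on with
  | empty => simp
  | insert a s ha ih =>
    rw [Finset.prod_insert ha, Finset.sum_insert ha]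
    have h1 : u a * ∏ i ∈ s, u i - 1 = u a * (∏ i ∈ s, u i - 1) + (u a - 1) := by ring
    rw [h1]
    have h2 := ih (fun i hi => hu i (Finset.mem_insert_of_mem hi))
    have h3 := hu a (Finset.mem_insert_self a s)
    calc ‖u a * (∏ i ∈ s, u i - 1) + (u a - 1)‖ ≤ ‖u a * (∏ i ∈ s, u i - 1)‖ + ‖u a - 1‖ :=
          norm_add_le _ _
      _ = ‖∏ i ∈ s, u i - 1‖ + ‖u a - 1‖ := by rw [norm_mul, h3, one_mul]
      _ ≤ ‖u a - 1‖ + ∑ i ∈ s, ‖u i - 1‖ := by linarith

lemma det_diff {ι : Type} [Fintype ι] [DecidableEq ι] (F u : ι → ι → ℂ) (r : ι → ℝ) (ε : ℝ)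
    (hu : ∀ i c, ‖u i c‖ = 1) (he : ∀ i c, ‖u i c - 1‖ ≤ ε) (hF : ∀ i c, ‖F i c‖ ≤ r i) :
    ‖Matrix.det (Matrix.of fun i c : ι => F i c * u i c) - Matrix.det (Matrix.of F)‖ ≤
      ((Fintype.card ι).factorial : ℝ) * (Fintype.card ι * ε) * ∏ i, r i := by
  have hr : ∀ i, 0 ≤ r i := fun i => le_trans (norm_nonneg _) (hF i i)
  rw [Matrix.det_apply, Matrix.det_apply, ← Finset.sum_sub_distrib]
  have hterm : ∀ σ : Equiv.Perm ι,
      ‖Equiv.Perm.sign σ • ∏ i, (Matrix.of fun i c : ι => F i c * u i c) (σ i) i -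
        Equiv.Perm.sign σ • ∏ i, (Matrix.of F) (σ i) i‖ ≤ (Fintype.card ι * ε) * ∏ i, r i := by
    intro σ
    rw [← smul_sub]
    have h1 : ‖Equiv.Perm.sign σ • (∏ i, (Matrix.of fun i c : ι => F i c * u i c) (σ i) i -
        ∏ i, (Matrix.of F) (σ i) i)‖ = ‖∏ i, (Matrix.of fun i c : ι => F i c * u i c) (σ i) i -
        ∏ i, (Matrix.of F) (σ i) i‖ := by
      rcases Int.units_eq_one_or (Equiv.Perm.sign σ) with h | h <;> rw [h]
      · simp
      · rw [Units.neg_smul, one_smul, norm_neg]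
    rw [h1]
    simp only [Matrix.of_apply]
    rw [Finset.prod_mul_distrib]
    have h2 : (∏ i, F (σ i) i) * ∏ i, u (σ i) i - ∏ i, F (σ i) i =
        (∏ i, F (σ i) i) * (∏ i, u (σ i) i - 1) := by ring
    rw [h2, norm_mul, norm_prod]
    have h3 : ∏ i, ‖F (σ i) i‖ ≤ ∏ i, r i := by
      rw [← Equiv.prod_comp σ r]
      exact Finset.prod_le_prod (fun i _ => norm_nonneg _) (fun i _ => hF _ _)
    have h4 : ‖∏ i, u (σ i) i - 1‖ ≤ Fintype.card ι * ε := by
      refine (norm_prod_sub_one Finset.univ (fun i => u (σ i) i) (fun i _ => hu _ _)).trans ?_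
      calc ∑ i, ‖u (σ i) i - 1‖ ≤ ∑ _i : ι, ε := Finset.sum_le_sum (fun i _ => he _ _)
        _ = Fintype.card ι * ε := by simp
    calc (∏ i, ‖F (σ i) i‖) * ‖∏ i, u (σ i) i - 1‖ ≤ (∏ i, r i) * (Fintype.card ι * ε) :=
          mul_le_mul h3 h4 (norm_nonneg _) (Finset.prod_nonneg (fun i _ => hr i))
      _ = _ := by ring
  refine (norm_sum_le _ _).trans ?_
  calc ∑ σ : Equiv.Perm ι, ‖Equiv.Perm.sign σ • ∏ i, (Matrix.of fun i c : ι => F i c * u i c) (σ i) i -
        Equiv.Perm.sign σ • ∏ i, (Matrix.of F) (σ i) i‖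
      ≤ ∑ _σ : Equiv.Perm ι, (Fintype.card ι * ε) * ∏ i, r i := Finset.sum_le_sum (fun σ _ => hterm σ)
    _ = _ := by
        rw [Finset.sum_const, Finset.card_univ, Fintype.card_perm, nsmul_eq_mul]
        ring

lemma sumFst (A B : ℕ) : 2 * ∑ i : Fin A × Fin B, (i.1 : ℕ) ≤ A * B * A := by
  rw [Fintype.sum_prod_type]
  simp only [Finset.sum_const, Finset.card_univ, Fintype.card_fin, smul_eq_mul]
  rw [← Finset.mul_sum, Fin.sum_univ_eq_sum_range (fun i => i) A]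
  have h := Finset.sum_range_id_mul_two A
  have h2 : A * (A - 1) ≤ A * A := Nat.mul_le_mul_left _ (Nat.sub_le _ _)
  calc 2 * (B * ∑ i ∈ Finset.range A, i) = B * ((∑ i ∈ Finset.range A, i) * 2) := by ring
    _ = B * (A * (A - 1)) := by rw [h]
    _ ≤ B * (A * A) := Nat.mul_le_mul_left _ h2
    _ = A * B * A := by ring

lemma sumSnd (A B : ℕ) : 2 * ∑ i : Fin A × Fin B, (i.2 : ℕ) ≤ A * B * B := by
  rw [Fintype.sum_prod_type]
  simp only [Finset.sum_const, Finset.card_univ, Fintype.card_fin, smul_eq_mul]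
  rw [Fin.sum_univ_eq_sum_range (fun i => i) B]
  have h := Finset.sum_range_id_mul_two B
  have h2 : B * (B - 1) ≤ B * B := Nat.mul_le_mul_left _ (Nat.sub_le _ _)
  calc 2 * (A * ∑ i ∈ Finset.range B, i) = A * ((∑ i ∈ Finset.range B, i) * 2) := by ring
    _ = A * (B * (B - 1)) := by rw [h]
    _ ≤ A * (B * B) := Nat.mul_le_mul_left _ h2
    _ = A * B * B := by ring

lemma log_two_pi : Real.log (2 * Real.pi) ≤ 2 := by
  rw [Real.log_le_iff_le_exp (by positivity)]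
  have h5 : Real.exp 2 = Real.exp 1 * Real.exp 1 := by rw [← Real.exp_add]; norm_num
  have h6 := Real.exp_one_gt_d9
  have h7 := Real.pi_lt_d2
  rw [h5]
  have h8 : (2.7 : ℝ) * 2.7 ≤ Real.exp 1 * Real.exp 1 :=
    mul_le_mul (by linarith) (by linarith) (by norm_num) (by positivity)
  linarith

/-- the purely real part of the argument -/
lemma real_part (A B S T0 : ℕ) (N K Sa Sb : ℕ) (lj L lρ lM θ ρ : ℝ) (hA : 1 ≤ A) (hB : 1 ≤ B)
    (hN : N = A * B) (hK : 2 * K = N * (N - 1)) (hSa : 2 * Sa ≤ N * A) (hSb : 2 * Sb ≤ N * B)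
    (hlj : 0 ≤ lj) (hljL : lj ≤ L) (hlρ : 0 ≤ lρ) (hlM : 0 ≤ lM)
    (hθρ : θ * ρ ≤ (S : ℝ) + 2 * T0)
    (hineq : 2 * Real.log N + 2 + A * (1 + lρ + L) +
      B * ((18 + lM) * S + 35 * T0) < (N : ℝ) - 1) :
    (N : ℝ) * Real.log N - K + Sa * (1 + lρ) + 2 * Real.pi * Real.exp 1 * (θ * ρ) * Sb ≤
      -(Sb * (S * lM) + Sa * lj) - Real.log 2 := by
  have hN1 : 1 ≤ N := by rw [hN]; exact Nat.one_le_iff_ne_zero.2 (Nat.mul_ne_zero (by omega) (by omega))
  have hNR : (1 : ℝ) ≤ N := by exact_mod_cast hN1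
  have hKR : 2 * (K : ℝ) = N * ((N : ℝ) - 1) := by
    have : ((2 * K : ℕ) : ℝ) = ((N * (N - 1) : ℕ) : ℝ) := by rw [hK]
    push_cast [Nat.cast_sub hN1] at this
    linarith
  have hSaR : 2 * (Sa : ℝ) ≤ N * A := by exact_mod_cast hSa
  have hSbR : 2 * (Sb : ℝ) ≤ N * B := by exact_mod_cast hSb
  have hpi : Real.pi < 3.15 := Real.pi_lt_d2
  have he : Real.exp 1 < 2.7182818286 := Real.exp_one_lt_d9
  have hpe : 2 * Real.pi * Real.exp 1 ≤ 17.2 := by
    have h1 : 0 < Real.pi := Real.pi_pos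
    have h2 : 0 < Real.exp 1 := Real.exp_pos 1
    nlinarith
  have hpe0 : 0 ≤ 2 * Real.pi * Real.exp 1 := by positivity
  have hS0 : (0 : ℝ) ≤ S := Nat.cast_nonneg _
  have hT0 : (0 : ℝ) ≤ T0 := Nat.cast_nonneg _
  have hSb0 : (0 : ℝ) ≤ Sb := Nat.cast_nonneg _
  have hSa0 : (0 : ℝ) ≤ Sa := Nat.cast_nonneg _
  have h1 : 2 * Real.pi * Real.exp 1 * (θ * ρ) ≤ 18 * S + 35 * T0 := by
    calc 2 * Real.pi * Real.exp 1 * (θ * ρ) ≤ 2 * Real.pi * Real.exp 1 * ((S : ℝ) + 2 * T0) :=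
          mul_le_mul_of_nonneg_left hθρ hpe0
      _ ≤ 17.2 * ((S : ℝ) + 2 * T0) := mul_le_mul_of_nonneg_right hpe (by positivity)
      _ ≤ 18 * S + 35 * T0 := by linarith
  have h2 : 2 * Real.pi * Real.exp 1 * (θ * ρ) * Sb + Sb * (S * lM) ≤
      (N * B / 2) * ((18 + lM) * S + 35 * T0) := by
    have hx : 0 ≤ (18 + lM) * (S : ℝ) + 35 * T0 := by positivity
    calc 2 * Real.pi * Real.exp 1 * (θ * ρ) * Sb + Sb * (S * lM)
        ≤ (18 * S + 35 * T0) * Sb + Sb * (S * lM) := by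
          have := mul_le_mul_of_nonneg_right h1 hSb0
          linarith
      _ = Sb * ((18 + lM) * S + 35 * T0) := by ring
      _ ≤ _ := mul_le_mul_of_nonneg_right (by linarith) hx
  have h3 : (Sa : ℝ) * (1 + lρ) + Sa * lj ≤ (N * A / 2) * (1 + lρ + L) := by
    calc (Sa : ℝ) * (1 + lρ) + Sa * lj = Sa * (1 + lρ + lj) := by ring
      _ ≤ Sa * (1 + lρ + L) := mul_le_mul_of_nonneg_left (by linarith) hSa0
      _ ≤ _ := mul_le_mul_of_nonneg_right (by linarith) (by linarith)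
  have hlog2 : Real.log 2 < 1 := by
    have := Real.log_two_lt_d9
    linarith
  have h4 := mul_lt_mul_of_pos_left hineq (show (0 : ℝ) < N / 2 by positivity)
  have h5 : (N / 2 : ℝ) * (2 * Real.log N + 2 + A * (1 + lρ + L) +
      B * ((18 + lM) * S + 35 * T0)) = N * Real.log N + N + (N * A / 2) * (1 + lρ + L) +
        (N * B / 2) * ((18 + lM) * S + 35 * T0) := by ring
  have h6 : (N / 2 : ℝ) * ((N : ℝ) - 1) = K := by linarith
  rw [h5, h6] at h4
  linarith

end PkLT5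

open PkLT5 in
theorem PkLT5.thm (h1 : G_LT1) (h2 : G_LT2) (h3 : G_LT3) (h4 : G_LT4) : G_LT5 := by
  intro T M η hc θ hθ0 hθ1 hη A B S2 T0 n j hA hB hT0 hj hjn hcop hS2 hAB hnθ L ρ hL hρ hineq
  classical
  have hη0 := hc.ne_zero
  have hjR : (1 : ℝ) ≤ j := by exact_mod_cast hj
  have hj0 : (0 : ℝ) < j := by linarith
  have hnR : (1 : ℝ) ≤ n := by exact_mod_cast (le_trans hj hjn)
  obtain ⟨f, hf⟩ := h3 (Fin A × Fin B) (Fin (S2 + B) × Fin T0)
    (fun i c => ((j * (c.1 : ℕ) + n * (c.2 : ℕ) : ℕ) : ℂ) ^ (i.1 : ℕ) * η ^ ((i.2 : ℕ) * (c.1 : ℕ))) (by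
      intro p hp
      have h := h2 η A B S2 T0 n j hη0 hc.hru (by omega) hcop hS2 hAB (fun a b => p (a, b)) (by
        intro s t hs ht
        have h := hp (⟨s, hs⟩, ⟨t, ht⟩)
        rw [Fintype.sum_prod_type] at h
        simpa [mul_assoc] using h)
      funext i
      exact congrFun (congrFun h i.1) i.2)
  -- the data of the columns
  obtain ⟨sj, hsj⟩ : ∃ sj : Fin A × Fin B → ℕ, ∀ i, sj i = ((f i).1 : ℕ) := ⟨_, fun _ => rfl⟩
  obtain ⟨tj, htj⟩ : ∃ tj : Fin A × Fin B → ℕ, ∀ i, tj i = ((f i).2 : ℕ) := ⟨_, fun _ => rfl⟩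
  have hsjS : ∀ i, sj i ≤ S2 + B := fun i => by rw [hsj]; exact (f i).1.2.le
  have htjT : ∀ i, tj i ≤ T0 := fun i => by rw [htj]; exact (f i).2.2.le
  have hD0 := h4 T M η hc (Fin A × Fin B) (fun i => (i.1 : ℕ)) (fun i => (i.2 : ℕ))
    (fun i => ((j * sj i + n * tj i : ℕ) : ℤ)) sj (S2 + B) hsjS (by
      convert hf using 3
      funext i c
      simp [hsj, htj])
  -- normalised nodes
  obtain ⟨z, hz⟩ : ∃ z : Fin A × Fin B → ℝ, ∀ i, z i = (j * sj i + n * tj i : ℝ) / j := ⟨_, fun _ => rfl⟩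
  have hρ1 : 1 ≤ ρ := by
    rw [hρ]
    have hB' : (1 : ℝ) ≤ B := by exact_mod_cast hB
    have : 0 ≤ 2 * (T0 : ℝ) / θ := by positivity
    have : (0 : ℝ) ≤ S2 := Nat.cast_nonneg _
    linarith
  have hz0 : ∀ i, 0 ≤ z i := fun i => by rw [hz]; positivity
  have hnj : (n : ℝ) / j ≤ 2 / θ := by
    rw [div_le_div_iff₀ hj0 hθ0]
    linarith
  have hzρ : ∀ i, |z i| ≤ ρ := by
    intro i
    rw [abs_of_nonneg (hz0 i), hz, hρ]
    have e : (j * sj i + n * tj i : ℝ) / j = sj i + tj i * (n / j) := by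
      field_simp
    rw [e]
    have h5 : (sj i : ℝ) ≤ S2 + B := by exact_mod_cast hsjS i
    have h6 : (tj i : ℝ) ≤ T0 := by exact_mod_cast htjT i
    have h7 : (tj i : ℝ) * (n / j) ≤ T0 * (2 / θ) :=
      mul_le_mul h6 hnj (by positivity) (Nat.cast_nonneg _)
    have h8 : (T0 : ℝ) * (2 / θ) = 2 * T0 / θ := by ring
    linarith
  -- the three determinants
  set Sa : ℕ := ∑ i : Fin A × Fin B, (i.1 : ℕ) with hSa
  set Sb : ℕ := ∑ i : Fin A × Fin B, (i.2 : ℕ) with hSb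
  set D1 : ℂ := Matrix.det (Matrix.of fun i c : Fin A × Fin B =>
    ((z c : ℝ) : ℂ) ^ (i.1 : ℕ) * η ^ ((i.2 : ℕ) * sj c)) with hD1
  have hD01 : Matrix.det (Matrix.of fun i c : Fin A × Fin B =>
      ((((j * sj c + n * tj c : ℕ) : ℤ)) : ℂ) ^ (i.1 : ℕ) * η ^ ((i.2 : ℕ) * sj c)) = (j : ℂ) ^ Sa * D1 := by
    rw [hD1, hSa, ← Finset.prod_pow_eq_pow_sum, ← Matrix.det_mul_column]
    congr 1
    ext i c
    simp only [Matrix.of_apply]
    rw [← mul_assoc, ← mul_pow]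
    congr 2
    rw [hz]
    push_cast
    have : (j : ℂ) ≠ 0 := by exact_mod_cast hj0.ne'
    field_simp
  have hMR := hc.MR
  have hM1 : (1 : ℝ) ≤ M := by exact_mod_cast (le_trans (by norm_num) hc.hM)
  have hlM : 0 ≤ Real.log M := Real.log_nonneg hM1
  have hlj : 0 ≤ Real.log j := Real.log_nonneg hjR
  have hljL : Real.log j ≤ L := (Real.log_le_log hj0 (by exact_mod_cast hjn)).trans hL
  have hlρ : 0 ≤ Real.log ρ := Real.log_nonneg hρ1
  set m0 : ℝ := Real.exp (-(Sb * (((S2 + B : ℕ) : ℝ) * Real.log M) + Sa * Real.log j)) with hm0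
  have hD1low : m0 ≤ ‖D1‖ := by
    rw [hD01, norm_mul, norm_pow, Complex.norm_natCast] at hD0
    have e1 : (j : ℝ) ^ Sa = Real.exp (Sa * Real.log j) := by
      rw [Real.exp_nat_mul, Real.exp_log hj0]
    have e2 : (M : ℝ) ^ ((S2 + B) * Sb) = Real.exp (Sb * (((S2 + B : ℕ) : ℝ) * Real.log M)) := by
      have : (Sb : ℝ) * (((S2 + B : ℕ) : ℝ) * Real.log M) = (((S2 + B) * Sb : ℕ) : ℝ) * Real.log M := by
        push_cast; ring
      rw [this, Real.exp_nat_mul, Real.exp_log hMR]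
    rw [e1, e2] at hD0
    have e3 : m0 * (Real.exp (Sa * Real.log j) * Real.exp (Sb * (((S2 + B : ℕ) : ℝ) * Real.log M))) = 1 := by
      rw [hm0, ← Real.exp_add, ← Real.exp_add, ← Real.exp_zero]
      congr 1
      ring
    have e4 : 0 < Real.exp (Sa * Real.log j) * Real.exp (Sb * (((S2 + B : ℕ) : ℝ) * Real.log M)) := by
      positivity
    refine le_of_mul_le_mul_right ?_ e4
    rw [e3]
    linarith
  -- the analytic determinant
  set bb : Fin A × Fin B → ℝ := fun i => 2 * Real.pi * θ * (i.2 : ℕ) with hbb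
  set F : Fin A × Fin B → Fin A × Fin B → ℂ := fun i c =>
    ((z c : ℝ) : ℂ) ^ (i.1 : ℕ) * Complex.exp (((bb i * z c : ℝ) : ℂ) * Complex.I) with hF
  set N : ℕ := A * B with hN
  have hcard : Fintype.card (Fin A × Fin B) = N := by simp [hN]
  have hN1 : 1 ≤ N := Nat.one_le_iff_ne_zero.2 (Nat.mul_ne_zero (by omega) (by omega))
  have hNR : (1 : ℝ) ≤ N := by exact_mod_cast hN1
  have hfac : ((N.factorial : ℕ) : ℝ) ≤ Real.exp (N * Real.log N) := by
    rw [Real.exp_nat_mul, Real.exp_log (by linarith)]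
    exact_mod_cast Nat.factorial_le_pow N
  have hθρ : θ * ρ ≤ ((S2 + B : ℕ) : ℝ) + 2 * T0 := by
    rw [hρ]
    have : θ * ((S2 : ℝ) + B + 2 * T0 / θ) = θ * (S2 + B) + 2 * T0 := by
      field_simp
    rw [this]
    push_cast
    have : θ * ((S2 : ℝ) + B) ≤ 1 * ((S2 : ℝ) + B) :=
      mul_le_mul_of_nonneg_right hθ1.le (by positivity)
    linarith
  have hK : 2 * (N * (N - 1) / 2) = N * (N - 1) := Nat.two_mul_div_two_of_even (Nat.even_mul_pred_self N)
  have hreal := real_part A B (S2 + B) T0 N (N * (N - 1) / 2) Sa Sb (Real.log j) L (Real.log ρ)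
    (Real.log M) θ ρ hA hB hN hK (sumFst A B) (sumSnd A B) hlj hljL hlρ hlM hθρ (by
      have : Real.log ((N : ℕ) : ℝ) = Real.log ((A : ℝ) * B) := by rw [hN]; push_cast; rfl
      rw [this]
      push_cast
      have e : ((N : ℕ) : ℝ) = A * B := by rw [hN]; push_cast; rfl
      rw [e]
      linarith)
  have hD2 : ‖Matrix.det (Matrix.of F)‖ ≤ m0 / 2 := by
    have hb := h1 (Fin A × Fin B) (fun i => (i.1 : ℕ)) bb z ρ (Real.exp 1) (by
      intro i; simp only [hbb]; positivity) hzρ (by linarith) (Real.one_le_exp zero_le_one)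
    rw [hcard] at hb
    refine hb.trans ?_
    have e1 : (Real.exp 1 ^ (N * (N - 1) / 2))⁻¹ = Real.exp (-((N * (N - 1) / 2 : ℕ) : ℝ)) := by
      rw [← Real.exp_nat_mul, ← Real.exp_neg, mul_one]
    have e2 : ∏ i : Fin A × Fin B, ((Real.exp 1 * ρ) ^ (i.1 : ℕ) * Real.exp (bb i * (Real.exp 1 * ρ))) =
        Real.exp (Sa * (1 + Real.log ρ) + 2 * Real.pi * Real.exp 1 * (θ * ρ) * Sb) := by
      rw [Finset.prod_mul_distrib, Finset.prod_pow_eq_pow_sum, ← Real.exp_sum, ← Finset.sum_mul,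
        Real.exp_add]
      congr 1
      · rw [← hSa, Real.exp_nat_mul, Real.exp_add, Real.exp_log (by linarith)]
      · congr 1
        simp only [hbb]
        rw [← Finset.mul_sum, hSb]
        push_cast
        ring
    rw [e1, e2]
    have e3 : m0 / 2 = Real.exp (-(Sb * (((S2 + B : ℕ) : ℝ) * Real.log M) + Sa * Real.log j) - Real.log 2) := by
      rw [Real.exp_sub, Real.exp_log (by norm_num)]
    rw [e3]
    calc ((N.factorial : ℕ) : ℝ) * Real.exp (-((N * (N - 1) / 2 : ℕ) : ℝ)) *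
          Real.exp (Sa * (1 + Real.log ρ) + 2 * Real.pi * Real.exp 1 * (θ * ρ) * Sb)
        ≤ Real.exp (N * Real.log N) * Real.exp (-((N * (N - 1) / 2 : ℕ) : ℝ)) *
          Real.exp (Sa * (1 + Real.log ρ) + 2 * Real.pi * Real.exp 1 * (θ * ρ) * Sb) := by
          gcongr
      _ = Real.exp (N * Real.log N - ((N * (N - 1) / 2 : ℕ) : ℝ) + Sa * (1 + Real.log ρ) +
            2 * Real.pi * Real.exp 1 * (θ * ρ) * Sb) := by
          rw [← Real.exp_add, ← Real.exp_add]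
          congr 1
          ring
      _ ≤ _ := Real.exp_le_exp.2 hreal
  -- the comparison
  set δ : ℝ := (n : ℝ) * θ - j with hδ
  set w : Fin A × Fin B → Fin A × Fin B → ℝ := fun i c =>
    -(2 * Real.pi * (i.2 : ℕ) * tj c * δ / j) with hw
  have hFu : (fun i c : Fin A × Fin B => F i c * Complex.exp (Complex.I * ((w i c : ℝ) : ℂ))) =
      fun i c => ((z c : ℝ) : ℂ) ^ (i.1 : ℕ) * η ^ ((i.2 : ℕ) * sj c) := by
    funext i c
    simp only [hF]
    rw [mul_assoc, ← Complex.exp_add]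
    congr 1
    rw [hη, ← Complex.exp_nat_mul]
    have e1 : ((bb i * z c : ℝ) : ℂ) * Complex.I + Complex.I * ((w i c : ℝ) : ℂ) =
        ((((i.2 : ℕ) * sj c : ℕ) : ℂ)) * (((2 * Real.pi * θ : ℝ) : ℂ) * Complex.I) +
          (((i.2 : ℕ) * tj c : ℕ) : ℂ) * (2 * Real.pi * Complex.I) := by
      have e2 : bb i * z c + w i c = ((i.2 : ℕ) * sj c : ℝ) * (2 * Real.pi * θ) +
          ((i.2 : ℕ) * tj c : ℝ) * (2 * Real.pi) := by
        simp only [hbb, hw, hδ]
        rw [hz]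
        field_simp
        ring
      have e3 := congrArg (fun x : ℝ => (x : ℂ)) e2
      push_cast at e3 ⊢
      linear_combination Complex.I * e3
    rw [e1, Complex.exp_add, Complex.exp_nat_mul_two_pi_mul_I, mul_one]
  have hT0R : (0 : ℝ) ≤ T0 := Nat.cast_nonneg _
  have hBR : (1 : ℝ) ≤ B := by exact_mod_cast hB
  have hT1R : (1 : ℝ) ≤ T0 := by exact_mod_cast hT0
  have hdiff := det_diff F (fun i c => Complex.exp (Complex.I * ((w i c : ℝ) : ℂ)))
    (fun i => ρ ^ (i.1 : ℕ)) (2 * Real.pi * B * T0 * |δ|) (by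
      intro i c
      simp only [mul_comm Complex.I]
      exact Complex.norm_exp_ofReal_mul_I _) (by
      intro i c
      refine (Real.norm_exp_I_mul_ofReal_sub_one_le).trans ?_
      rw [Real.norm_eq_abs, hw]
      simp only
      rw [abs_neg, abs_div, abs_mul, abs_of_nonneg (show (0 : ℝ) ≤ 2 * Real.pi * (i.2 : ℕ) * tj c by positivity),
        abs_of_pos hj0]
      have hi : ((i.2 : ℕ) : ℝ) ≤ B := by exact_mod_cast i.2.2.le
      have ht : (tj c : ℝ) ≤ T0 := by exact_mod_cast htjT c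
      calc 2 * Real.pi * ((i.2 : ℕ) : ℝ) * tj c * |δ| / j
          ≤ 2 * Real.pi * ((i.2 : ℕ) : ℝ) * tj c * |δ| := div_le_self (by positivity) hjR
        _ ≤ 2 * Real.pi * B * T0 * |δ| := by
            gcongr) (by
      intro i c
      simp only [hF]
      rw [norm_mul, Complex.norm_exp_ofReal_mul_I, mul_one, norm_pow, Complex.norm_real,
        Real.norm_eq_abs]
      exact pow_le_pow_left₀ (abs_nonneg _) (hzρ c) _)
  rw [hFu, hcard, Finset.prod_pow_eq_pow_sum, ← hSa] at hdiff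
  have hD1' : Matrix.det (Matrix.of fun i c : Fin A × Fin B =>
    ((z c : ℝ) : ℂ) ^ (i.1 : ℕ) * η ^ ((i.2 : ℕ) * sj c)) = D1 := rfl
  rw [hD1'] at hdiff
  have hhalf : m0 / 2 ≤ ‖D1 - Matrix.det (Matrix.of F)‖ := by
    have := norm_sub_norm_le D1 (Matrix.det (Matrix.of F))
    linarith
  have hmain := hhalf.trans hdiff
  -- final estimate
  have hSaR : (Sa : ℝ) ≤ N * A := by
    have := sumFst A B
    have h5 : (2 * Sa : ℝ) ≤ N * A := by exact_mod_cast this
    have h6 : (0 : ℝ) ≤ Sa := Nat.cast_nonneg _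
    linarith
  have hSbR : (Sb : ℝ) ≤ N * B := by
    have := sumSnd A B
    have h5 : (2 * Sb : ℝ) ≤ N * B := by exact_mod_cast this
    have h6 : (0 : ℝ) ≤ Sb := Nat.cast_nonneg _
    linarith
  have hlogN : Real.log N ≤ N - 1 := Real.log_le_sub_one_of_pos (by linarith)
  have hlogB : Real.log B ≤ B - 1 := Real.log_le_sub_one_of_pos (by linarith)
  have hlogT : Real.log T0 ≤ T0 - 1 := Real.log_le_sub_one_of_pos (by linarith)
  have hlog2 : Real.log 2 < 1 := by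
    have := Real.log_two_lt_d9
    linarith
  have hlog2pi : Real.log (2 * Real.pi) ≤ 2 := log_two_pi
  have hNe : (N : ℝ) ≤ Real.exp (Real.log N) := by rw [Real.exp_log (by linarith)]
  have hup : ((N.factorial : ℕ) : ℝ) * (N * (2 * Real.pi * B * T0 * |δ|)) * ρ ^ Sa ≤
      Real.exp (N * Real.log N + Real.log N + Real.log (2 * Real.pi) + Real.log B + Real.log T0 +
        Sa * Real.log ρ) * |δ| := by
    have e : Real.exp (N * Real.log N + Real.log N + Real.log (2 * Real.pi) + Real.log B +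
        Real.log T0 + Sa * Real.log ρ) =
        Real.exp (N * Real.log N) * N * (2 * Real.pi) * B * T0 * ρ ^ Sa := by
      rw [Real.exp_add, Real.exp_add, Real.exp_add, Real.exp_add, Real.exp_add, Real.exp_log (by linarith : (0 : ℝ) < N),
        Real.exp_log (by positivity), Real.exp_log (by linarith), Real.exp_log (by linarith),
        Real.exp_nat_mul (Real.log ρ), Real.exp_log (by linarith)]
    rw [e]
    calc ((N.factorial : ℕ) : ℝ) * (N * (2 * Real.pi * B * T0 * |δ|)) * ρ ^ Sa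
        = ((N.factorial : ℕ) : ℝ) * (N * (2 * Real.pi) * B * T0 * ρ ^ Sa * |δ|) := by ring
      _ ≤ Real.exp (N * Real.log N) * (N * (2 * Real.pi) * B * T0 * ρ ^ Sa * |δ|) := by
          apply mul_le_mul_of_nonneg_right hfac
          positivity
      _ = _ := by ring
  have hfin := hmain.trans hup
  have em : m0 / 2 = Real.exp (-(Sb * (((S2 + B : ℕ) : ℝ) * Real.log M) + Sa * Real.log j) - Real.log 2) := by
    rw [Real.exp_sub, Real.exp_log (by norm_num)]
  rw [em] at hfin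
  set Y : ℝ := N * Real.log N + Real.log N + Real.log (2 * Real.pi) + Real.log B + Real.log T0 +
        Sa * Real.log ρ with hY
  have hfin2 : Real.exp (-(Sb * (((S2 + B : ℕ) : ℝ) * Real.log M) + Sa * Real.log j) - Real.log 2 - Y) ≤ |δ| := by
    rw [Real.exp_sub, div_le_iff₀ (Real.exp_pos _)]
    linarith
  refine le_trans (Real.exp_le_exp.2 ?_) hfin2
  have e : ((A : ℝ) * B) = N := by rw [hN]; push_cast; rfl
  rw [e]
  push_cast
  have k1 : (N : ℝ) * Real.log N ≤ N * (N - 1) := mul_le_mul_of_nonneg_left hlogN (by linarith)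
  have k2 : (Sa : ℝ) * Real.log ρ ≤ N * A * Real.log ρ := mul_le_mul_of_nonneg_right hSaR hlρ
  have k3 : (Sa : ℝ) * Real.log j ≤ N * A * L := mul_le_mul hSaR hljL hlj (by positivity)
  have k4 : (Sb : ℝ) * (((S2 : ℝ) + B) * Real.log M) ≤ N * B * (((S2 : ℝ) + B) * Real.log M) :=
    mul_le_mul_of_nonneg_right hSbR (by positivity)
  have k5 : (N : ℝ) ^ 2 = N * N := sq _
  rw [hY]
  linarith [k1, k2, k3, k4, k5, hlogN, hlogB, hlogT, hlog2, hlog2pi]

end Pool.Agent.Helper59.LUC
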